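import Mathlib
import Pool.Agent.H478R3.Borsuk.Inter

set_option autoImplicit false

/-!
# Simultaneous bases of characters for two sets of the same size

The rank of the block with rows `U` (characters) and columns `E` (points) of the character table is
at least `|U| |E| / |G|`; the matroid intersection theorem gives a common basis.
-/

namespace Pool.Agent.Q107.SE

open Finset Module Submodule Pool.Agent.H478R3.Borsuk

theorem isRF_span {K V : Type*} {ι : Type} [Field K] [AddCommGroup V] [Module K V] [FiniteDimensional K V]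
    [DecidableEq ι] (v : ι → V) :
    IsRF (fun X : Finset ι => finrank K (span K (v '' (X : Set ι)))) where
  empty := by simp
  mono := by
    intro A B hAB
    exact finrank_mono (span_mono (Set.image_mono (by exact_mod_cast hAB)))
  ins := by
    intro e A
    show finrank K (span K (v '' ((insert e A : Finset ι) : Set ι))) ≤ _
    rw [coe_insert, Set.image_insert_eq, span_insert]
    have h1 := finrank_add_le_finrank_add_finrank (span K {v e}) (span K (v '' (A : Set ι)))
    have h2 := finrank_span_le_card (R := K) ({v e} : Set V)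
    simp only [Set.toFinset_singleton, card_singleton] at h2
    omega
  sub := by
    intro A B
    show finrank K (span K (v '' ((A ∪ B : Finset ι) : Set ι))) +
      finrank K (span K (v '' ((A ∩ B : Finset ι) : Set ι))) ≤ _
    rw [← finrank_sup_add_finrank_inf_eq (span K (v '' (A : Set ι))) (span K (v '' (B : Set ι))),
      coe_union, Set.image_union, span_union, coe_inter]
    refine Nat.add_le_add_left (finrank_mono ?_) _
    exact le_inf (span_mono (Set.image_mono Set.inter_subset_left))
      (span_mono (Set.image_mono Set.inter_subset_right))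

variable {G : Type*} [AddCommGroup G] [Fintype G] [DecidableEq G]

/-- the restriction of a character to a finite set of points -/
noncomputable def rs (E : Finset G) (χ : AddChar G ℂ) : EuclideanSpace ℂ E :=
  WithLp.toLp 2 (fun x => χ x)

theorem parseval (E : Finset G) (f : EuclideanSpace ℂ E) :
    ∑ χ : AddChar G ℂ, ‖inner ℂ f (rs E χ)‖ ^ 2 = (Fintype.card G : ℝ) * ‖f‖ ^ 2 := by
  have h : ((∑ χ : AddChar G ℂ, ‖inner ℂ f (rs E χ)‖ ^ 2 : ℝ) : ℂ) =
      (((Fintype.card G : ℝ) * ‖f‖ ^ 2 : ℝ) : ℂ) := by
    push_cast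
    rw [← Complex.ofReal_pow, EuclideanSpace.norm_sq_eq]
    push_cast
    calc ∑ χ : AddChar G ℂ, ((‖inner ℂ f (rs E χ)‖ : ℂ)) ^ 2
        = ∑ χ : AddChar G ℂ, ∑ x : E, ∑ y : E,
            (starRingEnd ℂ (f x) * f y) * χ ((x : G) - y) := by
          refine sum_congr rfl fun χ _ => ?_
          have h1 : inner ℂ f (rs E χ) = ∑ x : E, starRingEnd ℂ (f x) * χ x := by
            rw [PiLp.inner_apply]
            refine sum_congr rfl fun x _ => ?_
            simp [rs, mul_comm]
          rw [h1, ← Complex.mul_conj', map_sum, sum_mul_sum]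
          refine sum_congr rfl fun x _ => sum_congr rfl fun y _ => ?_
          rw [map_mul, Complex.conj_conj, sub_eq_add_neg, AddChar.map_add_eq_mul,
            AddChar.map_neg_eq_conj]
          ring
      _ = ∑ x : E, ∑ y : E, (starRingEnd ℂ (f x) * f y) * ∑ χ : AddChar G ℂ, χ ((x : G) - y) := by
          rw [sum_comm]
          refine sum_congr rfl fun x _ => ?_
          rw [sum_comm]
          refine sum_congr rfl fun y _ => ?_
          rw [mul_sum]
      _ = ∑ x : E, (Fintype.card G : ℂ) * (‖f x‖ : ℂ) ^ 2 := by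
          refine sum_congr rfl fun x _ => ?_
          rw [sum_eq_single x]
          · rw [sub_self, AddChar.sum_apply_eq_ite, if_pos rfl, ← Complex.conj_mul']
            ring
          · intro y _ hy
            rw [AddChar.sum_apply_eq_ite, if_neg, mul_zero]
            intro h
            exact hy (Subtype.ext (sub_eq_zero.1 h).symm)
          · simp
      _ = _ := by rw [mul_sum]
  exact_mod_cast h

omit [DecidableEq G] in
theorem norm_rs (E : Finset G) (χ : AddChar G ℂ) : ‖rs E χ‖ ^ 2 = E.card := by
  rw [EuclideanSpace.norm_sq_eq]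
  simp [rs, AddChar.norm_apply]

theorem rank_bound (E : Finset G) (U : Finset (AddChar G ℂ)) :
    U.card * E.card ≤ Fintype.card G * finrank ℂ (span ℂ (rs E '' (U : Set (AddChar G ℂ)))) := by
  set W := span ℂ (rs E '' (U : Set (AddChar G ℂ))) with hW
  let b := stdOrthonormalBasis ℂ W
  have h1 : ∀ χ ∈ U, (E.card : ℝ) = ∑ i, ‖inner ℂ ((b i : W) : EuclideanSpace ℂ E) (rs E χ)‖ ^ 2 := by
    intro χ hχ
    have hm : rs E χ ∈ W := subset_span ⟨χ, hχ, rfl⟩
    have h2 := b.sum_sq_norm_inner_right (⟨rs E χ, hm⟩ : W)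
    rw [← norm_rs E χ]
    rw [show ‖rs E χ‖ = ‖(⟨rs E χ, hm⟩ : W)‖ from rfl, ← h2]
    rfl
  have h3 : ((U.card * E.card : ℕ) : ℝ) ≤
      ((Fintype.card G * finrank ℂ W : ℕ) : ℝ) := by
    push_cast
    calc (U.card : ℝ) * E.card = ∑ χ ∈ U, (E.card : ℝ) := by rw [sum_const, nsmul_eq_mul]
      _ = ∑ χ ∈ U, ∑ i, ‖inner ℂ ((b i : W) : EuclideanSpace ℂ E) (rs E χ)‖ ^ 2 :=
          sum_congr rfl h1
      _ = ∑ i, ∑ χ ∈ U, ‖inner ℂ ((b i : W) : EuclideanSpace ℂ E) (rs E χ)‖ ^ 2 := sum_comm
      _ ≤ ∑ i, ∑ χ : AddChar G ℂ, ‖inner ℂ ((b i : W) : EuclideanSpace ℂ E) (rs E χ)‖ ^ 2 := by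
          refine sum_le_sum fun i _ => ?_
          exact sum_le_sum_of_subset_of_nonneg (subset_univ _) (fun _ _ _ => by positivity)
      _ = ∑ _i : Fin (finrank ℂ W), (Fintype.card G : ℝ) := by
          refine sum_congr rfl fun i _ => ?_
          rw [parseval]
          have : ‖((b i : W) : EuclideanSpace ℂ E)‖ = 1 := b.orthonormal.1 i
          rw [this]
          ring
      _ = (Fintype.card G : ℝ) * finrank ℂ W := by
          rw [sum_const, nsmul_eq_mul, card_univ, Fintype.card_fin]
          ring
  exact_mod_cast h3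

theorem exists_common (E₁ E₂ : Finset G) (h : E₁.card = E₂.card) :
    ∃ L : Finset (AddChar G ℂ), L.card = E₁.card ∧
      LinearIndependent ℂ (fun χ : L => rs E₁ (χ : AddChar G ℂ)) ∧
      LinearIndependent ℂ (fun χ : L => rs E₂ (χ : AddChar G ℂ)) := by
  classical
  set n := Fintype.card G with hn
  have hn0 : 0 < n := Fintype.card_pos
  have e : Fin n ≃ AddChar G ℂ := (Fintype.equivFinOfCardEq AddChar.card_eq).symm
  have hr : ∀ (E : Finset G) (X : Finset (Fin n)),
      X.card * E.card ≤ n * finrank ℂ (span ℂ ((rs E ∘ e) '' (X : Set (Fin n)))) := by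
    intro E X
    have h1 := rank_bound E (X.map e.toEmbedding)
    rw [card_map, coe_map, ← Set.image_comp] at h1
    exact h1
  have hle : ∀ (E : Finset G) (X : Finset (Fin n)),
      finrank ℂ (span ℂ ((rs E ∘ e) '' (X : Set (Fin n)))) ≤ E.card := by
    intro E X
    refine (finrank_le _).trans ?_
    simp
  obtain ⟨I, -, h1, h2, h3⟩ := inter n univ _ _ (by simp) (isRF_span (K := ℂ) (rs E₁ ∘ e))
    (isRF_span (K := ℂ) (rs E₂ ∘ e)) E₁.card (by
      intro A _
      have a1 := hr E₁ A
      have a2 := hr E₂ (univ \ A)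
      rw [card_sdiff_of_subset (subset_univ _), card_univ, Fintype.card_fin, ← h] at a2
      have a3 : A.card ≤ n := by simpa using card_le_univ A
      have a4 : n * E₁.card = A.card * E₁.card + (n - A.card) * E₁.card := by
        rw [← add_mul]
        congr 1
        omega
      have a5 : n * E₁.card ≤ n * (finrank ℂ (span ℂ ((rs E₁ ∘ e) '' (A : Set (Fin n)))) +
          finrank ℂ (span ℂ ((rs E₂ ∘ e) '' ((univ \ A : Finset (Fin n)) : Set (Fin n))))) := by
        rw [a4, mul_add]
        exact add_le_add a1 a2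
      exact Nat.le_of_mul_le_mul_left a5 hn0)
  have hI : I.card = E₁.card := by
    have := hle E₁ I
    omega
  have key : ∀ E : Finset G, finrank ℂ (span ℂ ((rs E ∘ e) '' (I : Set (Fin n)))) = I.card →
      LinearIndependent ℂ (fun χ : I.map e.toEmbedding => rs E (χ : AddChar G ℂ)) := by
    intro E hE
    rw [linearIndependent_iff_card_eq_finrank_span]
    have hs : Set.range (fun χ : I.map e.toEmbedding => rs E (χ : AddChar G ℂ)) =
        (rs E ∘ e) '' (I : Set (Fin n)) := by
      rw [Set.image_comp]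
      ext v
      simp only [Set.mem_range, Subtype.exists, Set.mem_image, Finset.mem_map, Equiv.coe_toEmbedding,
        mem_coe]
      constructor
      · rintro ⟨χ, ⟨i, hi, rfl⟩, rfl⟩
        exact ⟨e i, ⟨i, hi, rfl⟩, rfl⟩
      · rintro ⟨χ, ⟨i, hi, rfl⟩, rfl⟩
        exact ⟨e i, ⟨i, hi, rfl⟩, rfl⟩
    rw [hs, Fintype.card_coe, card_map]
    exact hE.symm
  exact ⟨I.map e.toEmbedding, by rw [card_map, hI], key E₁ h1, key E₂ h2⟩

end Pool.Agent.Q107.SE
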